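import Pool.Agent.Helper77.XL.Law
import Pool.Agent.Helper73.XL.KWM

/-!
# XL-D1: final form
-/

open MeasureTheory Real Set Filter Topology unitInterval

set_option autoImplicit false

namespace Pool.Agent.Helper77.XL

open Pool.Agent.Helper22.AE
open Pool.Agent.Helper22.XL

theorem xf_of_tail {H : ℝ → ℝ} (hH : ContDiff ℝ 2 H) (hp : Function.Periodic H (2 * π)) (_hr : ∀ θ, 0 < H θ + deriv (deriv H) θ) (hL : LI H)
    (hT : TailP 3 H) {φ : ℝ → ℝ} (hφ : Continuous φ) (hc : HasCompactSupport φ) : XF H φ :=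
  xf_of hH hp hT hφ hc fun N => Pool.Agent.Helper73.XL.kwF hL N hφ

theorem xs_of_tail {H : ℝ → ℝ} (hH : ContDiff ℝ 2 H) (hp : Function.Periodic H (2 * π)) (hr : ∀ θ, 0 < H θ + deriv (deriv H) θ) (hL : LI H)
    (hT : TailP 3 H) {φ : ℝ → ℝ} (hφ : Continuous φ) (hc : HasCompactSupport φ) : XS H φ :=
  xs_of hH hp hr hT hφ hc fun N => Pool.Agent.Helper73.XL.kwS hL N hφ

end Pool.Agent.Helper77.XL
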