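import Pool.Agent.Helper22.XL.Defs
import Pool.Agent.Helper88.XL.TailP

/-!
# XL-D1: the means of the error are close to the means of the random sums, from the tail
-/

open MeasureTheory Real Set Filter Topology unitInterval

set_option autoImplicit false

namespace Pool.Agent.Helper77.XL

open Pool.Agent.Helper22.AE
open Pool.Agent.Helper22.AC (cntc)
open Pool.Agent.Helper93.EX (Mx ak prim sn fJ)
open Pool.Agent.Helper22.WC (SupE SupQ LimS PM3 sup_sub_le)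
open Pool.Agent.Helper92.LW (LimF fjk PM2 BM mean_diff mean_const Mx_cont u_bm)
open Pool.Agent.Helper60.WC (bdd supE_nonneg le_supE supE_facts)
open Pool.Agent.Helper60.AD
open Pool.Agent.Helper22.XL

/-- from the sixth moments over dyadic intervals to the second moments over all intervals, one main sum -/
theorem tail_fix {E M : ℝ → ℝ × ℝ → ℝ} {η : ℝ} (hη : 0 < η) {N₂ : ℕ}
    (h : ∀ N : ℕ, N₂ ≤ N → ∃ V : ℝ → ℝ, Measurable V ∧ IntegrableOn V (Icc ((2 : ℝ) ^ N) (2 * 2 ^ N)) ∧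
      (∀ R ∈ Icc ((2 : ℝ) ^ N) (2 * 2 ^ N), ∀ c : ℝ × ℝ, |E R c - M R c| ^ 6 ≤ V R) ∧ (∀ R, 0 ≤ V R) ∧
      ∫ R in Icc ((2 : ℝ) ^ N) (2 * 2 ^ N), V R ≤ (η / 2) ^ 3 / 17 * ((2 : ℝ) ^ N) ^ 4) :
    ∃ X₀ : ℝ, 1 ≤ X₀ ∧ ∀ X : ℝ, X₀ ≤ X → ∃ V : ℝ → ℝ, IntegrableOn V (Icc X (2 * X)) ∧
      (∀ R ∈ Icc X (2 * X), ∀ c : ℝ × ℝ, |E R c - M R c| ^ 2 ≤ V R) ∧ ∫ R in Icc X (2 * X), V R ≤ η * X ^ 2 := by
  obtain ⟨d, hd⟩ : ∃ d : ℝ, d = η / 2 := ⟨_, rfl⟩
  have hd0 : 0 < d := by rw [hd]; positivity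
  rw [← hd] at h
  refine ⟨2 ^ N₂, one_le_pow₀ (by norm_num), fun X hX => ?_⟩
  have hX1 : 1 ≤ X := (one_le_pow₀ (by norm_num : (1 : ℝ) ≤ 2)).trans hX
  have hX0 : 0 < X := by linarith
  obtain ⟨N, hN1, hN2⟩ := exists_nat_pow_near hX1 (by norm_num : (1 : ℝ) < 2)
  have hN : N₂ ≤ N := by
    by_contra hcon
    have h1 : N + 1 ≤ N₂ := by omega
    have h2 : (2 : ℝ) ^ (N + 1) ≤ 2 ^ N₂ := pow_le_pow_right₀ (by norm_num) h1
    linarith
  obtain ⟨V1, m1, i1, b1, p1, s1⟩ := h N hN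
  obtain ⟨V2, m2, i2, b2, p2, s2⟩ := h (N + 1) (by omega)
  obtain ⟨S1, hS1⟩ : ∃ S1 : Set ℝ, S1 = Icc ((2 : ℝ) ^ N) (2 * 2 ^ N) := ⟨_, rfl⟩
  obtain ⟨S2, hS2⟩ : ∃ S2 : Set ℝ, S2 = Icc ((2 : ℝ) ^ (N + 1)) (2 * 2 ^ (N + 1)) := ⟨_, rfl⟩
  have hm1 : MeasurableSet S1 := by rw [hS1]; exact measurableSet_Icc
  have hm2 : MeasurableSet S2 := by rw [hS2]; exact measurableSet_Icc
  rw [← hS1] at i1 b1 s1
  rw [← hS2] at i2 b2 s2
  have j1 : Integrable (S1.indicator V1) := (integrable_indicator_iff hm1).2 i1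
  have j2 : Integrable (S2.indicator V2) := (integrable_indicator_iff hm2).2 i2
  have n1 : ∀ R, 0 ≤ S1.indicator V1 R := fun R => indicator_nonneg (fun R _ => p1 R) R
  have n2 : ∀ R, 0 ≤ S2.indicator V2 R := fun R => indicator_nonneg (fun R _ => p2 R) R
  have hconst : IntegrableOn (fun _ : ℝ => d * X) (Icc X (2 * X)) := continuousOn_const.integrableOn_compact isCompact_Icc
  have j3 : IntegrableOn (fun R => (S1.indicator V1 R + S2.indicator V2 R) / (d * X) ^ 2) (Icc X (2 * X)) :=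
    ((j1.add j2).div_const _).integrableOn
  refine ⟨fun R => d * X + (S1.indicator V1 R + S2.indicator V2 R) / (d * X) ^ 2, hconst.add j3, ?_, ?_⟩
  · intro R hR c
    have ha : 0 < d * X := by positivity
    have hpt : |E R c - M R c| ^ 2 ≤ d * X + |E R c - M R c| ^ 6 / (d * X) ^ 2 := by
      obtain ⟨y, hy⟩ : ∃ y : ℝ, y = |E R c - M R c| := ⟨_, rfl⟩
      have hy0 : 0 ≤ y := by rw [hy]; exact abs_nonneg _
      rw [← hy]
      by_cases h1 : y ^ 2 ≤ d * X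
      · have : 0 ≤ y ^ 6 / (d * X) ^ 2 := by positivity
        linarith
      · push Not at h1
        have h2 : y ^ 2 ≤ y ^ 6 / (d * X) ^ 2 := by
          rw [le_div_iff₀ (by positivity)]
          have h3 : (d * X) ^ 2 ≤ (y ^ 2) ^ 2 := pow_le_pow_left₀ ha.le h1.le 2
          calc y ^ 2 * (d * X) ^ 2 ≤ y ^ 2 * (y ^ 2) ^ 2 := mul_le_mul_of_nonneg_left h3 (by positivity)
            _ = y ^ 6 := by ring
        linarith
    have h6 : |E R c - M R c| ^ 6 ≤ S1.indicator V1 R + S2.indicator V2 R := by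
      by_cases hR1 : R ∈ S1
      · have e : S1.indicator V1 R = V1 R := indicator_of_mem hR1 _
        rw [e]
        have := b1 R hR1 c
        have := n2 R
        linarith
      · have hR2 : R ∈ S2 := by
          rw [hS1, mem_Icc, not_and_or] at hR1
          rw [hS2, mem_Icc]
          have h4 : (2 : ℝ) ^ (N + 1) = 2 * 2 ^ N := by ring
          rcases hR1 with h5 | h5
          · exact absurd (hN1.trans hR.1) h5
          · push Not at h5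
            constructor
            · linarith
            · have := hR.2
              linarith
        have e : S2.indicator V2 R = V2 R := indicator_of_mem hR2 _
        rw [e]
        have := b2 R hR2 c
        have := n1 R
        linarith
    refine hpt.trans ?_
    have h7 := div_le_div_of_nonneg_right h6 (by positivity : (0 : ℝ) ≤ (d * X) ^ 2)
    linarith
  · rw [integral_add hconst j3, integral_div]
    have e1 : ∫ _ in Icc X (2 * X), d * X = d * X * X := by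
      rw [setIntegral_const, Real.volume_real_Icc_of_le (by linarith), smul_eq_mul]
      ring
    have e2 : ∫ R in Icc X (2 * X), (S1.indicator V1 R + S2.indicator V2 R) ≤ d ^ 3 / 17 * ((2 : ℝ) ^ N) ^ 4 + d ^ 3 / 17 * ((2 : ℝ) ^ (N + 1)) ^ 4 := by
      have h1 : ∫ R in Icc X (2 * X), (S1.indicator V1 R + S2.indicator V2 R) ≤ ∫ R, (S1.indicator V1 R + S2.indicator V2 R) :=
        setIntegral_le_integral (j1.add j2) (Eventually.of_forall fun R => add_nonneg (n1 R) (n2 R))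
      rw [integral_add j1 j2, integral_indicator hm1, integral_indicator hm2] at h1
      linarith
    rw [e1]
    have h2 : (2 : ℝ) ^ N ≤ X := hN1
    have h3 : ((2 : ℝ) ^ N) ^ 4 ≤ X ^ 4 := pow_le_pow_left₀ (by positivity) h2 4
    have h4 : ((2 : ℝ) ^ (N + 1)) ^ 4 = 16 * ((2 : ℝ) ^ N) ^ 4 := by ring
    rw [h4] at e2
    have h5 : ∫ R in Icc X (2 * X), (S1.indicator V1 R + S2.indicator V2 R) ≤ d ^ 3 * X ^ 4 := by
      have h6 : 0 < d ^ 3 := by positivity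
      nlinarith
    calc d * X * X + (∫ R in Icc X (2 * X), (S1.indicator V1 R + S2.indicator V2 R)) / (d * X) ^ 2 ≤ d * X * X + (d ^ 3 * X ^ 4) / (d * X) ^ 2 := by gcongr
      _ = η * X ^ 2 := by
        rw [hd]
        field_simp
        ring

/-- the means of a bounded uniformly continuous function at two functions with small mean square distance -/
theorem mean_close {X : ℝ} (hX1 : 1 ≤ X) {u v : ℝ → ℝ} (bu : BM X u) (bv : BM X v) {φ : ℝ → ℝ} (hφ : Continuous φ)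
    {B : ℝ} (hB : ∀ y, ‖φ y‖ ≤ B) {ε δ : ℝ} (hε : 0 < ε) (hδ : 0 < δ) (hu : ∀ ⦃a b : ℝ⦄, dist a b < δ → dist (φ a) (φ b) < ε / 2)
    {V : ℝ → ℝ} (v1 : IntegrableOn V (Icc X (2 * X))) (v2 : ∀ R ∈ Icc X (2 * X), |u R - v R| ^ 2 ≤ V R / R)
    (v3 : ∫ R in Icc X (2 * X), V R ≤ (ε * δ ^ 2 / (2 * (2 * B + 1))) * X ^ 2) :
    |X⁻¹ * (∫ R in Icc X (2 * X), φ (u R)) - X⁻¹ * (∫ R in Icc X (2 * X), φ (v R))| ≤ ε := by
  have hX0 : 0 < X := by linarith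
  have hB0 : 0 ≤ B := (norm_nonneg _).trans (hB 0)
  obtain ⟨η, hη⟩ : ∃ η : ℝ, η = ε * δ ^ 2 / (2 * (2 * B + 1)) := ⟨_, rfl⟩
  rw [← hη] at v3
  have b1 := bu.comp hφ
  have b2 := bv.comp hφ
  have h3 := mean_diff hX1 b1 b2
  have hpt : ∀ R ∈ Icc X (2 * X), |φ (u R) - φ (v R)| ≤ ε / 2 + 2 * B / δ ^ 2 / X * V R := by
    intro R hR
    have hR0 : 0 < R := by linarith [hR.1]
    have hq1 := v2 R hR
    obtain ⟨y, hy⟩ : ∃ y : ℝ, y = u R := ⟨_, rfl⟩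
    obtain ⟨z, hz⟩ : ∃ z : ℝ, z = v R := ⟨_, rfl⟩
    rw [← hy, ← hz] at hq1
    rw [← hy, ← hz]
    have hV0 : 0 ≤ V R := by
      have h4 : 0 ≤ V R / R := (by positivity : (0 : ℝ) ≤ |y - z| ^ 2).trans hq1
      have h5 := mul_nonneg h4 hR0.le
      rwa [div_mul_cancel₀ _ hR0.ne'] at h5
    have hq : |y - z| ^ 2 ≤ V R / X := hq1.trans (div_le_div_of_nonneg_left hV0 hX0 hR.1)
    have a1 := hB y
    have a2 := hB z
    rw [Real.norm_eq_abs] at a1 a2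
    have hq0 : 0 ≤ 2 * B / δ ^ 2 / X * V R := by positivity
    rcases lt_or_ge (dist y z) δ with hd | hd
    · have := hu hd
      rw [Real.dist_eq] at this
      linarith
    · rw [Real.dist_eq] at hd
      have a3 : |φ y - φ z| ≤ 2 * B := by
        have := abs_sub (φ y) (φ z)
        linarith
      have a4 : δ ^ 2 ≤ |y - z| ^ 2 := pow_le_pow_left₀ hδ.le hd 2
      have a5 : 2 * B ≤ 2 * B / δ ^ 2 / X * V R := by
        have e3 : 2 * B / δ ^ 2 / X * V R = 2 * B * (V R / X) / δ ^ 2 := by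
          field_simp
        rw [e3, le_div_iff₀ (by positivity)]
        exact mul_le_mul_of_nonneg_left (a4.trans hq) (by positivity)
      linarith
  have h4 : X⁻¹ * ∫ R in Icc X (2 * X), |φ (u R) - φ (v R)| ≤ ε / 2 + 2 * B / δ ^ 2 * η := by
    have hconst : IntegrableOn (fun _ : ℝ => ε / 2) (Icc X (2 * X)) := continuousOn_const.integrableOn_compact isCompact_Icc
    have hi := hconst.add (v1.const_mul (2 * B / δ ^ 2 / X))
    have h5 : ∫ R in Icc X (2 * X), |φ (u R) - φ (v R)| ≤ ∫ R in Icc X (2 * X), (ε / 2 + 2 * B / δ ^ 2 / X * V R) :=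
      setIntegral_mono_on (b1.sub b2).abs.int hi measurableSet_Icc hpt
    have e4 : ∫ R in Icc X (2 * X), (ε / 2 + 2 * B / δ ^ 2 / X * V R) = ε / 2 * X + 2 * B / δ ^ 2 / X * ∫ R in Icc X (2 * X), V R := by
      rw [integral_add hconst (v1.const_mul _), integral_const_mul, setIntegral_const, Real.volume_real_Icc_of_le (by linarith), smul_eq_mul]
      ring
    rw [e4] at h5
    have h6 : 2 * B / δ ^ 2 / X * ∫ R in Icc X (2 * X), V R ≤ 2 * B / δ ^ 2 / X * (η * X ^ 2) := mul_le_mul_of_nonneg_left v3 (by positivity)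
    calc X⁻¹ * ∫ R in Icc X (2 * X), |φ (u R) - φ (v R)|
        ≤ X⁻¹ * (ε / 2 * X + 2 * B / δ ^ 2 / X * (η * X ^ 2)) := mul_le_mul_of_nonneg_left (h5.trans (by linarith)) (by positivity)
      _ = ε / 2 + 2 * B / δ ^ 2 * η := by
        field_simp
  have h5 : 2 * B / δ ^ 2 * η ≤ ε / 2 := by
    rw [hη]
    have e : 2 * B / δ ^ 2 * (ε * δ ^ 2 / (2 * (2 * B + 1))) = ε / 2 * (2 * B / (2 * B + 1)) := by
      field_simp
    rw [e]
    refine mul_le_of_le_one_right (by positivity) ?_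
    rw [div_le_one (by positivity)]
    linarith
  have h7 := h3.trans h4
  linarith

/-- the tail of order six gives the tail of order two over all intervals -/
theorem tail_two {H : ℝ → ℝ} (hT : TailP 3 H) {η : ℝ} (hη : 0 < η) : ∃ n1 : ℕ, ∀ n0 : ℕ, n1 ≤ n0 →
    ∃ X₀ : ℝ, 1 ≤ X₀ ∧ ∀ X : ℝ, X₀ ≤ X → ∃ V : ℝ → ℝ, IntegrableOn V (Icc X (2 * X)) ∧
      (∀ R ∈ Icc X (2 * X), ∀ c : ℝ × ℝ, |cntc H c R - area H * R ^ 2 - sqrt R * Mx H (2 ^ n0) R c| ^ 2 ≤ V R) ∧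
      ∫ R in Icc X (2 * X), V R ≤ η * X ^ 2 := by
  obtain ⟨n1, h1⟩ := hT ((η / 2) ^ 3 / 17) (by positivity)
  refine ⟨n1, fun n0 hn0 => ?_⟩
  obtain ⟨N₂, h2⟩ := h1 n0 hn0
  exact tail_fix (E := fun R c => cntc H c R - area H * R ^ 2) (M := fun R c => sqrt R * Mx H (2 ^ n0) R c) hη
    (N₂ := N₂) (fun N hN => h2 N hN)

/-- D1 at the centre `0`, over `kwF` -/
theorem xf_of {H : ℝ → ℝ} (hH : ContDiff ℝ 2 H) (hp : Function.Periodic H (2 * π)) (hT : TailP 3 H) {φ : ℝ → ℝ}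
    (hφ : Continuous φ) (hc : HasCompactSupport φ)
    (hk : ∀ N : ℕ, ∀ ε : ℝ, 0 < ε → ∃ X₀ : ℝ, 1 ≤ X₀ ∧ ∀ X : ℝ, X₀ ≤ X →
      |X⁻¹ * (∫ R in Icc X (2 * X), φ (Mx H N R (0, 0))) - mF N φ H| ≤ ε) : XF H φ := by
  intro n
  have hcn := hH.continuous
  obtain ⟨B, hB⟩ := hc.exists_bound_of_continuous hφ
  have hB0 : 0 ≤ B := (norm_nonneg _).trans (hB 0)
  have hu := hc.uniformContinuous_of_continuous hφ
  obtain ⟨ε, hε⟩ : ∃ ε : ℝ, ε = 1 / ((n : ℝ) + 1) := ⟨_, rfl⟩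
  have hε0 : 0 < ε := by rw [hε]; positivity
  rw [Metric.uniformContinuous_iff] at hu
  obtain ⟨δ, hδ, hu⟩ := hu (ε / 2 / 2) (by positivity)
  obtain ⟨n1, h1⟩ := tail_two hT (η := ε / 2 * δ ^ 2 / (2 * (2 * B + 1))) (by positivity)
  refine ⟨n1, fun N hN => ?_⟩
  obtain ⟨X₁, hX₁, h2⟩ := h1 N hN
  obtain ⟨X₂, hX₂, h3⟩ := hk (2 ^ N) (ε / 2) (by positivity)
  refine ⟨⌈max X₁ X₂⌉₊, fun X hX => ?_⟩
  have hXm : max X₁ X₂ ≤ (X : ℝ) := (Nat.le_ceil _).trans (by exact_mod_cast (by omega : ⌈max X₁ X₂⌉₊ ≤ X))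
  have hXa : X₁ ≤ (X : ℝ) := (le_max_left _ _).trans hXm
  have hXb : X₂ ≤ (X : ℝ) := (le_max_right _ _).trans hXm
  have hX1 : (1 : ℝ) ≤ X := hX₁.trans hXa
  obtain ⟨V, v1, v2, v3⟩ := h2 X hXa
  have bu := u_bm hcn hp (0, 0) hX1
  have bv : BM X (fun R => Mx H (2 ^ N) R (0, 0)) := BM.cont (Mx_cont H _ (0, 0)).continuousOn
  have h4 := mean_close hX1 bu bv hφ hB (half_pos hε0) hδ hu v1 (fun R hR => by
    have hR0 : 0 < R := by linarith [hR.1]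
    have hs : 0 < sqrt R := Real.sqrt_pos.2 hR0
    have e2 : (cntc H (0, 0) R - area H * R ^ 2) / sqrt R - Mx H (2 ^ N) R (0, 0) =
        (cntc H (0, 0) R - area H * R ^ 2 - sqrt R * Mx H (2 ^ N) R (0, 0)) / sqrt R := by
      field_simp
    rw [e2, abs_div, div_pow, abs_of_pos hs, Real.sq_sqrt hR0.le]
    exact div_le_div_of_nonneg_right (v2 R hR (0, 0)) hR0.le) v3
  have h5 := h3 X hXb
  rw [← hε]
  have e : (X : ℝ)⁻¹ * (∫ R in Icc (X : ℝ) (2 * X), φ ((cntc H (0, 0) R - area H * R ^ 2) / sqrt R)) - mF (2 ^ N) φ H =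
      ((X : ℝ)⁻¹ * (∫ R in Icc (X : ℝ) (2 * X), φ ((cntc H (0, 0) R - area H * R ^ 2) / sqrt R)) -
        (X : ℝ)⁻¹ * (∫ R in Icc (X : ℝ) (2 * X), φ (Mx H (2 ^ N) R (0, 0)))) +
      ((X : ℝ)⁻¹ * (∫ R in Icc (X : ℝ) (2 * X), φ (Mx H (2 ^ N) R (0, 0))) - mF (2 ^ N) φ H) := by ring
  rw [e]
  refine (abs_add_le _ _).trans ?_
  linarith

/-- D1 at the worst centre, over `kwS` -/
theorem xs_of {H : ℝ → ℝ} (hH : ContDiff ℝ 2 H) (hp : Function.Periodic H (2 * π)) (hr : ∀ θ, 0 < H θ + deriv (deriv H) θ)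
    (hT : TailP 3 H) {φ : ℝ → ℝ} (hφ : Continuous φ) (hc : HasCompactSupport φ)
    (hk : ∀ N : ℕ, ∀ ε : ℝ, 0 < ε → ∃ X₀ : ℝ, 1 ≤ X₀ ∧ ∀ X : ℝ, X₀ ≤ X →
      |X⁻¹ * (∫ R in Icc X (2 * X), φ (⨆ c : ℝ × ℝ, |Mx H N R c|)) - mS N φ H| ≤ ε) : XS H φ := by
  intro n
  obtain ⟨f1, f2, f3, -⟩ := supE_facts hH hp hr
  obtain ⟨B, hB⟩ := hc.exists_bound_of_continuous hφ
  have hB0 : 0 ≤ B := (norm_nonneg _).trans (hB 0)
  have hu := hc.uniformContinuous_of_continuous hφ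
  obtain ⟨ε, hε⟩ : ∃ ε : ℝ, ε = 1 / ((n : ℝ) + 1) := ⟨_, rfl⟩
  have hε0 : 0 < ε := by rw [hε]; positivity
  rw [Metric.uniformContinuous_iff] at hu
  obtain ⟨δ, hδ, hu⟩ := hu (ε / 2 / 2) (by positivity)
  obtain ⟨n1, h1⟩ := tail_two hT (η := ε / 2 * δ ^ 2 / (2 * (2 * B + 1))) (by positivity)
  refine ⟨n1, fun N hN => ?_⟩
  obtain ⟨X₁, hX₁, h2⟩ := h1 N hN
  obtain ⟨X₂, hX₂, h3⟩ := hk (2 ^ N) (ε / 2) (by positivity)
  obtain ⟨g1, g2, -⟩ := Pool.Agent.Helper99.WC.sup_mean H (2 ^ N) hφ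
  refine ⟨⌈max X₁ X₂⌉₊, fun X hX => ?_⟩
  have hXm : max X₁ X₂ ≤ (X : ℝ) := (Nat.le_ceil _).trans (by exact_mod_cast (by omega : ⌈max X₁ X₂⌉₊ ≤ X))
  have hXa : X₁ ≤ (X : ℝ) := (le_max_left _ _).trans hXm
  have hXb : X₂ ≤ (X : ℝ) := (le_max_right _ _).trans hXm
  have hX1 : (1 : ℝ) ≤ X := hX₁.trans hXa
  have hX0 : (0 : ℝ) < X := by linarith
  rw [Pool.Agent.Helper35.WCS.intQ hH hp hr φ hX0]
  obtain ⟨V, v1, v2, v3⟩ := h2 X hXa
  have bu : BM X (fun R => SupE H R / sqrt R) := by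
    obtain ⟨C, hC⟩ := f2 (2 * X)
    refine ⟨(f3.div Real.continuous_sqrt.measurable).aemeasurable, C, fun R hR => ?_⟩
    have hR1 : 1 ≤ R := hX1.trans hR.1
    have hs : 1 ≤ sqrt R := Real.one_le_sqrt.2 hR1
    have hC1 := hC R ⟨hR1, hR.2⟩
    rw [abs_div, abs_of_nonneg hC1.1, abs_of_nonneg (by linarith : (0 : ℝ) ≤ sqrt R)]
    exact (div_le_self hC1.1 hs).trans hC1.2
  have bv : BM X (fun R => ⨆ c : ℝ × ℝ, |Mx H (2 ^ N) R c|) := BM.cont g1.continuousOn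
  have h4 := mean_close hX1 bu bv hφ hB (half_pos hε0) hδ hu v1 (fun R hR => by
    have hR0 : 0 < R := by linarith [hR.1]
    have hs : 0 < sqrt R := Real.sqrt_pos.2 hR0
    have hV0 : 0 ≤ V R := (by positivity : (0 : ℝ) ≤ _).trans (v2 R hR (0, 0))
    have hyz : |SupE H R / sqrt R - (⨆ c : ℝ × ℝ, |Mx H (2 ^ N) R c|)| ≤ sqrt (V R / R) := by
      have e1 : SupE H R / sqrt R = ⨆ c : ℝ × ℝ, |(cntc H c R - area H * R ^ 2) / sqrt R| := by
        unfold SupE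
        rw [div_eq_mul_inv, Real.iSup_mul_of_nonneg (inv_nonneg.2 hs.le)]
        refine iSup_congr fun c => ?_
        rw [abs_div, abs_of_pos hs, div_eq_mul_inv]
      rw [e1]
      refine sup_sub_le ?_ (g2 R) fun c => ?_
      · obtain ⟨b, hb⟩ := f1 R
        refine ⟨b / sqrt R, ?_⟩
        rintro _ ⟨c, rfl⟩
        show |(cntc H c R - area H * R ^ 2) / sqrt R| ≤ b / sqrt R
        rw [abs_div, abs_of_pos hs]
        exact div_le_div_of_nonneg_right (hb ⟨c, rfl⟩) hs.le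
      · refine Real.le_sqrt_of_sq_le ?_
        have e2 : (cntc H c R - area H * R ^ 2) / sqrt R - Mx H (2 ^ N) R c =
            (cntc H c R - area H * R ^ 2 - sqrt R * Mx H (2 ^ N) R c) / sqrt R := by
          field_simp
        rw [e2, abs_div, div_pow, abs_of_pos hs, Real.sq_sqrt hR0.le]
        exact div_le_div_of_nonneg_right (v2 R hR c) hR0.le
    have h5 := pow_le_pow_left₀ (abs_nonneg _) hyz 2
    rwa [Real.sq_sqrt (by positivity)] at h5) v3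
  have h5 := h3 X hXb
  rw [← hε]
  have e : (X : ℝ)⁻¹ * (∫ R in Icc (X : ℝ) (2 * X), φ (SupE H R / sqrt R)) - mS (2 ^ N) φ H =
      ((X : ℝ)⁻¹ * (∫ R in Icc (X : ℝ) (2 * X), φ (SupE H R / sqrt R)) -
        (X : ℝ)⁻¹ * (∫ R in Icc (X : ℝ) (2 * X), φ (⨆ c : ℝ × ℝ, |Mx H (2 ^ N) R c|))) +
      ((X : ℝ)⁻¹ * (∫ R in Icc (X : ℝ) (2 * X), φ (⨆ c : ℝ × ℝ, |Mx H (2 ^ N) R c|)) - mS (2 ^ N) φ H) := by ring
  rw [e]
  refine (abs_add_le _ _).trans ?_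
  linarith

end Pool.Agent.Helper77.XL
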